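import Pool.Agent.N641.VB.Stm

set_option autoImplicit false

/-!
# VB/E: pure algebras of every rank (helper424, for helper641)
-/

namespace Pool.Agent.N424.VB

open Pool.Agent.N641.VB

/-- the shift of the ideals -/
theorem DD_shift {A : Type} [BooleanAlgebra A] (D0 : A → Prop) :
    ∀ (k : ℕ) (a : A), DD D0 (k + 1) a ↔ DD (DD D0 1) k a
  | 0, a => Iff.rfl
  | k + 1, a => by
    have h := DD_shift D0 k
    constructor
    · rintro ⟨s, hs, ha⟩
      refine ⟨s, fun c hc d hd => ?_, ha⟩
      rw [← h, ← h]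
      exact hs c hc d hd
    · rintro ⟨s, hs, ha⟩
      refine ⟨s, fun c hc d hd => ?_, ha⟩
      rw [h, h]
      exact hs c hc d hd

theorem AL_shift {A : Type} [BooleanAlgebra A] (D0 : A → Prop) (k : ℕ) (a : A) :
    AL D0 (k + 1) a ↔ AL (DD D0 1) k a := by
  unfold AL
  simp only [DD_shift D0 k]

theorem DD_bot {A : Type} [BooleanAlgebra A] : ∀ k : ℕ, DD (fun b : A => b = ⊥) k ⊥
  | 0 => rfl
  | k + 1 => ⟨∅, fun c hc => absurd hc (Finset.notMem_empty c), bot_le⟩

/-- the algebra of the clopen subsets of the Cantor space -/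
theorem base : ∃ (E : Type) (_ : BooleanAlgebra E), Countable E ∧ Pure E 0 := by
  refine ⟨TopologicalSpace.Clopens (ℕ → Bool), inferInstance, ?_, ?_, ?_, ?_⟩
  · rw [TopologicalSpace.Clopens.countable_iff_secondCountable]
    infer_instance
  · intro h
    have h1 : (⊤ : TopologicalSpace.Clopens (ℕ → Bool)) = ⊥ := h
    have h2 : (fun _ => true : ℕ → Bool) ∈ (⊤ : TopologicalSpace.Clopens (ℕ → Bool)) := trivial
    rw [h1] at h2
    exact h2
  · intro c _ hc
    have hne : ∃ x : ℕ → Bool, x ∈ (c : Set (ℕ → Bool)) := by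
      by_contra hcon
      push Not at hcon
      apply hc
      show c = ⊥
      apply SetLike.coe_injective
      rw [Set.eq_empty_of_forall_notMem hcon]
      rfl
    obtain ⟨x, hx⟩ := hne
    obtain ⟨I, u, hu, hI⟩ := isOpen_pi_iff.1 c.isClopen.isOpen x hx
    obtain ⟨i, hi⟩ := Infinite.exists_notMem_finset I
    have hy : Function.update x i (!x i) ∈ (c : Set (ℕ → Bool)) := by
      apply hI
      intro j hj
      have hji : j ≠ i := fun h => hi (h ▸ hj)
      rw [Function.update_of_ne hji]
      exact (hu j hj).2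
    have hcl : IsClopen {z : ℕ → Bool | z i = x i} :=
      (isClopen_discrete {x i}).preimage (continuous_apply i)
    obtain ⟨e, he⟩ : ∃ e : TopologicalSpace.Clopens (ℕ → Bool),
        (e : Set (ℕ → Bool)) = {z : ℕ → Bool | z i = x i} := ⟨⟨_, hcl⟩, rfl⟩
    refine ⟨c ⊓ e, inf_le_left, ?_, ?_⟩
    · intro h
      have h1 : c ⊓ e = ⊥ := h
      have h2 : x ∈ ((c ⊓ e : TopologicalSpace.Clopens (ℕ → Bool)) : Set (ℕ → Bool)) := by
        rw [TopologicalSpace.Clopens.coe_inf, he]
        exact ⟨hx, rfl⟩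
      rw [h1] at h2
      exact h2
    · intro h
      have h1 : c \ (c ⊓ e) = ⊥ := h
      have h2 : Function.update x i (!x i) ∈
          ((c \ (c ⊓ e) : TopologicalSpace.Clopens (ℕ → Bool)) : Set (ℕ → Bool)) := by
        rw [TopologicalSpace.Clopens.coe_sdiff, TopologicalSpace.Clopens.coe_inf, he]
        refine ⟨hy, fun h3 => ?_⟩
        have h4 : Function.update x i (!x i) i = x i := h3.2
        rw [Function.update_self] at h4
        cases hxi : x i <;> rw [hxi] at h4 <;> cases h4
      rw [h1] at h2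
      exact h2
  · intro k hk
    exact absurd hk (Nat.not_lt_zero k)

theorem E (LIFT : S_LIFT) (QUO : S_QUO) : S_E := by
  intro n
  induction n with
  | zero => exact base
  | succ n ih =>
    obtain ⟨E, iE, hc, hP⟩ := ih
    have hnt : Nontrivial E := by
      by_contra hcon
      rw [not_nontrivial_iff_subsingleton] at hcon
      apply hP.top
      rw [Subsingleton.elim (⊤ : E) ⊥]
      exact DD_bot n
    obtain ⟨A, iA, π, hcA, hsurj, hsup, hsd, hker, hat⟩ := LIFT E
    obtain ⟨q1, q2, -⟩ := QUO A E π (DD (fun b : A => b = ⊥) 1) hsurj hsup hsd hker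
    have htop : π ⊤ = ⊤ := by
      rw [eq_top_iff]
      obtain ⟨a, ha⟩ := hsurj ⊤
      rw [← ha]
      have := hsup a ⊤
      rw [sup_top_eq] at this
      rw [this]
      exact le_sup_left
    refine ⟨A, iA, hcA, ?_, ?_, ?_⟩
    · rw [DD_shift, q1, htop]
      exact hP.top
    · rw [AL_shift, q2, htop]
      exact hP.al
    · intro k hk c hAL
      rcases k with _ | k
      · show c = ⊥
        by_contra hne
        obtain ⟨c', hc', hne', hat'⟩ := hat c hne
        obtain ⟨d, hd, h1, h2⟩ := hAL c' hc' hne'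
        rcases hat' d hd with h3 | h3
        · exact h1 h3
        · exact h2 h3
      · rw [DD_shift, q1]
        rw [AL_shift, q2] at hAL
        exact hP.low k (Nat.lt_of_succ_lt_succ hk) _ hAL

end Pool.Agent.N424.VB
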