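import Pool.Agent.N641.VB.Stm

set_option autoImplicit false

/-!
# VB/GLU: gluing of cells (helper424, for helper641)
-/

namespace Pool.Agent.N424.VB

open Pool.Agent.N641.VB

theorem GLU : S_GLU := by
  classical
  intro M _ n A _ _ mu hmu
  obtain ⟨p, hp⟩ : ∃ p : Fin n → (∀ ε, A ε), ∀ j ε, p j ε = if ε j = true then ⊤ else ⊥ :=
    ⟨fun j ε => if ε j = true then ⊤ else ⊥, fun _ _ => rfl⟩
  have hcell : ∀ ε : Fin n → Bool, (Function.update ⊥ ε ⊤ : ∀ ε, A ε) = cell p ε := by
    intro ε
    funext ε'
    unfold cell
    rw [Finset.inf_apply]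
    by_cases h : ε' = ε
    · subst h
      rw [Function.update_self]
      symm
      rw [eq_top_iff]
      refine Finset.le_inf fun i _ => ?_
      by_cases hi : ε' i = true
      · rw [if_pos hi, hp, if_pos hi]
      · rw [if_neg hi, Pi.compl_apply, hp, if_neg hi, compl_bot]
    · rw [Function.update_of_ne h]
      symm
      rw [Pi.bot_apply, eq_bot_iff]
      obtain ⟨i, hi⟩ : ∃ i, ε' i ≠ ε i := by
        by_contra hcon
        push Not at hcon
        exact h (funext hcon)
      refine (Finset.inf_le (Finset.mem_univ i)).trans ?_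
      by_cases h1 : ε i = true
      · rw [if_pos h1, hp, if_neg (fun h2 => hi (h2.trans h1.symm))]
      · have h2 : ε' i = true := by
          rw [Bool.not_eq_true] at h1
          rw [h1] at hi
          exact Bool.ne_false_iff.1 hi
        rw [if_neg h1, Pi.compl_apply, hp, if_pos h2, compl_top]
  refine ⟨∀ ε, A ε, inferInstance, fun x => ∑ ε, mu ε (x ε), p, fun ε b => Function.update ⊥ ε b,
    inferInstance, ⟨?_, ?_⟩, hcell, ?_, ?_, ?_⟩
  · exact Finset.sum_eq_zero fun ε _ => (hmu ε).bot
  · intro a b hab
    rw [← Finset.sum_add_distrib]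
    refine Finset.sum_congr rfl fun ε _ => ?_
    exact (hmu ε).sup _ _ (Pi.disjoint_iff.1 hab ε)
  · intro ε b c
    show b ≤ c ↔ Function.update (⊥ : ∀ ε, A ε) ε b ≤ Function.update ⊥ ε c
    constructor
    · intro h ε'
      by_cases h1 : ε' = ε
      · subst h1
        rw [Function.update_self, Function.update_self]
        exact h
      · rw [Function.update_of_ne h1, Function.update_of_ne h1]
    · intro h
      have := h ε
      rwa [Function.update_self, Function.update_self] at this
  · intro ε c hc
    refine ⟨c ε, ?_⟩
    show Function.update (⊥ : ∀ ε, A ε) ε (c ε) = c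
    funext ε'
    by_cases h : ε' = ε
    · subst h
      rw [Function.update_self]
    · rw [Function.update_of_ne h]
      rw [← hcell] at hc
      have := hc ε'
      rw [Function.update_of_ne h] at this
      exact (le_bot_iff.1 this).symm
  · intro ε b
    show ∑ ε', mu ε' (Function.update (⊥ : ∀ ε, A ε) ε b ε') = mu ε b
    rw [Finset.sum_eq_single ε]
    · rw [Function.update_self]
    · intro ε' _ h
      rw [Function.update_of_ne h]
      exact (hmu ε').bot
    · intro h
      exact absurd (Finset.mem_univ ε) h

end Pool.Agent.N424.VB
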